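import Mathlib

/-!
# Poisson summation for shifted Gaussians in one variable, with frequencies
-/

set_option autoImplicit false
set_option maxHeartbeats 1000000

open Complex Real

namespace Pool.Agent.W975.CM

/-- the shifted Gaussian with a frequency -/
noncomputable def ga (s d f : ℝ) (y : ℤ) : ℂ :=
  cexp (2 * π * I * (f * y)) * cexp (-(π * s * ((y : ℂ) + d) ^ 2))

/-- its transform -/
noncomputable def gb (s d f : ℝ) (l : ℤ) : ℂ :=
  cexp (2 * π * I * (((l : ℂ) - f) * d)) * cexp (-(π * ((l : ℂ) - f) ^ 2 / s))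

theorem ga_eq (s d f : ℝ) (y : ℤ) :
    ga s d f y = cexp (-(π * s * (d : ℂ) ^ 2)) * jacobiTheta₂_term y (f + I * s * d) (I * s) := by
  unfold ga jacobiTheta₂_term
  rw [← Complex.exp_add, ← Complex.exp_add]
  congr 1
  have hI : I ^ 2 = -1 := I_sq
  linear_combination (-(2 * π * y * s * d) - π * y ^ 2 * s : ℂ) * hI

theorem gb_eq {s : ℝ} (hs : 0 < s) (d f : ℝ) (l : ℤ) :
    gb s d f l = cexp (-(π * (f : ℂ) ^ 2 / s) - 2 * π * I * (f * d)) *
      jacobiTheta₂_term l (d - I * (f / s)) (I / s) := by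
  unfold gb jacobiTheta₂_term
  rw [← Complex.exp_add, ← Complex.exp_add]
  congr 1
  have hI : I ^ 2 = -1 := I_sq
  have hs' : (s : ℂ) ≠ 0 := by exact_mod_cast hs.ne'
  field_simp
  linear_combination (2 * (l : ℂ) * f - (l : ℂ) ^ 2) * hI

theorem pois {s : ℝ} (hs : 0 < s) (d f : ℝ) : ∃ S0 S1 : ℂ,
    HasSum (gb s d f) S0 ∧ HasSum (fun l : ℤ => ((l : ℂ) - f) * gb s d f l) S1 ∧
    HasSum (ga s d f) (1 / (√s : ℂ) * S0) ∧
    HasSum (fun y : ℤ => ((y : ℂ) + d) * ga s d f y) (-I / ((s : ℂ) * √s) * S1) := by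
  have hs' : (s : ℂ) ≠ 0 := by exact_mod_cast hs.ne'
  have hπ : (π : ℂ) ≠ 0 := by exact_mod_cast Real.pi_ne_zero
  have hI0 : I ≠ 0 := I_ne_zero
  have hI : I ^ 2 = -1 := I_sq
  have im1 : 0 < (I * (s : ℂ)).im := by simpa using hs
  have im2 : 0 < (I / (s : ℂ)).im := by
    rw [div_ofReal_im, I_im]
    positivity
  have h0 := hasSum_jacobiTheta₂_term (f + I * s * d : ℂ) im1
  have h1 := hasSum_jacobiTheta₂'_term (f + I * s * d : ℂ) im1
  have k0 := hasSum_jacobiTheta₂_term (d - I * (f / s) : ℂ) im2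
  have k1 := hasSum_jacobiTheta₂'_term (d - I * (f / s) : ℂ) im2
  obtain ⟨A, hA⟩ : ∃ A : ℂ, A = cexp (-(π * s * (d : ℂ) ^ 2)) := ⟨_, rfl⟩
  obtain ⟨B, hB⟩ : ∃ B : ℂ, B = cexp (-(π * (f : ℂ) ^ 2 / s) - 2 * π * I * (f * d)) := ⟨_, rfl⟩
  have F0 := jacobiTheta₂_functional_equation (f + I * s * d : ℂ) (I * (s : ℂ))
  have F1 := jacobiTheta₂'_functional_equation (f + I * s * d : ℂ) (I * (s : ℂ))
  have e1 : (-I * (I * (s : ℂ))) ^ (1 / 2 : ℂ) = (√s : ℂ) := by
    have e : -I * (I * (s : ℂ)) = (s : ℂ) := by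
      linear_combination (-(s : ℂ)) * hI
    rw [e, Real.sqrt_eq_rpow, Complex.ofReal_cpow hs.le]
    norm_num
  have e2 : (f + I * s * d : ℂ) / (I * s) = d - I * (f / s) := by
    field_simp
    linear_combination (f : ℂ) * hI
  have e3 : (-1 : ℂ) / (I * s) = I / s := by
    field_simp
    linear_combination (-1 : ℂ) * hI
  have e4 : A * cexp (-π * I * (f + I * s * d : ℂ) ^ 2 / (I * s)) = B := by
    rw [hA, hB, ← Complex.exp_add]
    congr 1
    field_simp
    linear_combination (-(s : ℂ) ^ 2 * d ^ 2) * hI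
  rw [e1, e2, e3] at F0 F1
  refine ⟨B * jacobiTheta₂ (d - I * (f / s)) (I / s),
    B * (1 / (2 * π * I) * jacobiTheta₂' (d - I * (f / s)) (I / s) -
      f * jacobiTheta₂ (d - I * (f / s)) (I / s)), ?_, ?_, ?_, ?_⟩
  · have e : gb s d f = fun l => B * jacobiTheta₂_term l (d - I * (f / s)) (I / s) := by
      funext l
      rw [gb_eq hs, hB]
    rw [e]
    exact k0.mul_left B
  · have e : (fun l : ℤ => ((l : ℂ) - f) * gb s d f l) = fun l : ℤ =>
        B * (1 / (2 * π * I) * jacobiTheta₂'_term l (d - I * (f / s)) (I / s) -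
          f * jacobiTheta₂_term l (d - I * (f / s)) (I / s)) := by
      funext l
      rw [gb_eq hs, hB, jacobiTheta₂'_term]
      field_simp
    rw [e]
    exact ((k1.mul_left _).sub (k0.mul_left _)).mul_left B
  · have e : ga s d f = fun y => A * jacobiTheta₂_term y (f + I * s * d) (I * s) := by
      funext y
      rw [ga_eq, hA]
    rw [e]
    have h2 := h0.mul_left A
    have e5 : A * jacobiTheta₂ (f + I * s * d) (I * s) =
        1 / (√s : ℂ) * (B * jacobiTheta₂ (d - I * (f / s)) (I / s)) := by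
      rw [F0, ← e4]
      ring
    rw [e5] at h2
    exact h2
  · have e : (fun y : ℤ => ((y : ℂ) + d) * ga s d f y) = fun y : ℤ =>
        A * (1 / (2 * π * I) * jacobiTheta₂'_term y (f + I * s * d) (I * s) +
          d * jacobiTheta₂_term y (f + I * s * d) (I * s)) := by
      funext y
      rw [ga_eq, hA, jacobiTheta₂'_term]
      field_simp
    rw [e]
    have h2 := ((h1.mul_left (1 / (2 * π * I))).add (h0.mul_left (d : ℂ))).mul_left A
    have hr : (√s : ℂ) ≠ 0 := by exact_mod_cast (Real.sqrt_pos.2 hs).ne'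
    have e5 : A * (1 / (2 * π * I) * jacobiTheta₂' (f + I * s * d) (I * s) +
        d * jacobiTheta₂ (f + I * s * d) (I * s)) =
        -I / ((s : ℂ) * √s) * (B * (1 / (2 * π * I) * jacobiTheta₂' (d - I * (f / s)) (I / s) -
      f * jacobiTheta₂ (d - I * (f / s)) (I / s))) := by
      rw [F0, F1, ← e4]
      generalize jacobiTheta₂' (d - I * (f / s)) (I / s) = T1
      generalize jacobiTheta₂ (d - I * (f / s)) (I / s) = T0
      generalize cexp (-π * I * (f + I * s * d : ℂ) ^ 2 / (I * s)) = E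
      field_simp
      linear_combination (A * E * T1 - 2 * π * I * f * T0 * A * E) * hI
    rw [e5] at h2
    exact h2

end Pool.Agent.W975.CM
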