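import Mathlib
import Pool.Agent.W975.CM.Pois1
import Pool.Agent.W192.CM.Parts

/-!
# Poisson summation on a residue class of the ring of integers
-/

set_option autoImplicit false
set_option maxHeartbeats 1000000

open Complex Real

namespace Pool.Agent.W975.CM

theorem norm_e (x : ℝ) : ‖cexp (2 * π * I * (x : ℂ))‖ = 1 := by
  rw [show (2 * π * I * (x : ℂ) : ℂ) = ((2 * π * x : ℝ) : ℂ) * I by push_cast; ring]
  exact Complex.norm_exp_ofReal_mul_I _

theorem norm_ga (s d f : ℝ) (y : ℤ) :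
    ‖ga s d f y‖ = Real.exp (-(π * s * ((y : ℝ) + d) ^ 2)) := by
  unfold ga
  have h1 : ‖cexp (2 * π * I * (f * y))‖ = 1 := by
    have := norm_e (f * y)
    push_cast at this
    exact this
  have h2 : (-(π * s * ((y : ℂ) + d) ^ 2)) = ((-(π * s * ((y : ℝ) + d) ^ 2) : ℝ) : ℂ) := by
    push_cast
    ring
  rw [norm_mul, h1, one_mul, h2, Complex.norm_exp_ofReal]

theorem norm_gb (s d f : ℝ) (l : ℤ) :
    ‖gb s d f l‖ = Real.exp (-(π * ((l : ℝ) - f) ^ 2 / s)) := by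
  unfold gb
  have h1 : ‖cexp (2 * π * I * (((l : ℂ) - f) * d))‖ = 1 := by
    have := norm_e (((l : ℝ) - f) * d)
    push_cast at this
    exact this
  have h2 : (-(π * ((l : ℂ) - f) ^ 2 / s)) = ((-(π * ((l : ℝ) - f) ^ 2 / s) : ℝ) : ℂ) := by
    push_cast
    ring
  rw [norm_mul, h1, one_mul, h2, Complex.norm_exp_ofReal]

/-- summable Gaussians in one variable -/
theorem summ_one {c : ℝ} (hc : 0 < c) : Summable (fun n : ℤ => Real.exp (-(c * (n : ℝ) ^ 2))) := by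
  obtain ⟨S0, S1, -, -, h, -⟩ := pois (s := c / π) (by positivity) 0 0
  refine h.summable.norm.congr fun n => ?_
  rw [norm_ga, add_zero]
  congr 1
  field_simp

/-- summable Gaussians in two variables -/
theorem summ_two (u v a b c : ℝ) (hv : v ≠ 0) (hc : 0 < c) :
    Summable (fun p : ℤ × ℤ => √(((p.2 : ℝ) + p.1 * u + a) ^ 2 + ((p.1 : ℝ) * v + b) ^ 2) *
      Real.exp (-(c * (((p.2 : ℝ) + p.1 * u + a) ^ 2 + ((p.1 : ℝ) * v + b) ^ 2)))) := by
  obtain ⟨C0, hC0⟩ : ∃ C0, C0 = 2 + (2 * u ^ 2 + 1) / v ^ 2 := ⟨_, rfl⟩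
  have hv2 : 0 < v ^ 2 := by positivity
  have hC0p : 0 < C0 := by rw [hC0]; positivity
  have h1 := summ_one (c := c / (4 * C0)) (by positivity)
  have h2 := h1.mul_of_nonneg h1 (fun _ => (Real.exp_pos _).le) (fun _ => (Real.exp_pos _).le)
  refine Summable.of_nonneg_of_le (fun p => by positivity) (fun p => ?_)
    (h2.mul_left ((1 + 2 / c) * Real.exp (c * (a ^ 2 + b ^ 2) / 2)))
  generalize (p.2 : ℝ) = x
  generalize (p.1 : ℝ) = y
  obtain ⟨Qs, hQs⟩ : ∃ Qs, Qs = (x + y * u + a) ^ 2 + (y * v + b) ^ 2 := ⟨_, rfl⟩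
  obtain ⟨Q, hQ⟩ : ∃ Q, Q = (x + y * u) ^ 2 + (y * v) ^ 2 := ⟨_, rfl⟩
  rw [← hQs]
  have hQs0 : 0 ≤ Qs := by rw [hQs]; positivity
  have e1 : √Qs ≤ (1 + 2 / c) * Real.exp (c * Qs / 2) := by
    have a1 : √Qs ≤ 1 + Qs := by
      rw [Real.sqrt_le_left (by linarith)]
      nlinarith
    have a2 : c * Qs / 2 + 1 ≤ Real.exp (c * Qs / 2) := Real.add_one_le_exp _
    have a3 : Qs ≤ 2 / c * Real.exp (c * Qs / 2) := by
      rw [div_mul_eq_mul_div, le_div_iff₀ hc]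
      nlinarith
    have a4 : 0 ≤ c * Qs / 2 := by positivity
    have a5 : 1 ≤ Real.exp (c * Qs / 2) := by linarith
    nlinarith
  have e2 : Q / 2 - (a ^ 2 + b ^ 2) ≤ Qs := by
    rw [hQ, hQs]
    nlinarith [sq_nonneg (x + y * u + 2 * a), sq_nonneg (y * v + 2 * b)]
  have e3 : x ^ 2 + y ^ 2 ≤ C0 * Q := by
    have b1 : (2 * u ^ 2 + 1) / v ^ 2 * (y * v) ^ 2 = (2 * u ^ 2 + 1) * y ^ 2 := by
      field_simp
    have b2 : 0 ≤ (2 * u ^ 2 + 1) / v ^ 2 * (x + y * u) ^ 2 := by positivity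
    have b3 : C0 * Q = 2 * (x + y * u) ^ 2 + 2 * (y * v) ^ 2 +
        (2 * u ^ 2 + 1) / v ^ 2 * (x + y * u) ^ 2 + (2 * u ^ 2 + 1) / v ^ 2 * (y * v) ^ 2 := by
      rw [hC0, hQ]
      ring
    rw [b3, b1]
    nlinarith [sq_nonneg (x + 2 * (y * u)), sq_nonneg (y * v)]
  have e4 : (x ^ 2 + y ^ 2) / C0 ≤ Q := by
    rw [div_le_iff₀ hC0p]
    linarith
  calc √Qs * Real.exp (-(c * Qs))
      ≤ ((1 + 2 / c) * Real.exp (c * Qs / 2)) * Real.exp (-(c * Qs)) :=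
        mul_le_mul_of_nonneg_right e1 (Real.exp_pos _).le
    _ = (1 + 2 / c) * Real.exp (-(c * Qs / 2)) := by
        rw [mul_assoc, ← Real.exp_add]
        congr 2
        ring
    _ ≤ (1 + 2 / c) * Real.exp (c * (a ^ 2 + b ^ 2) / 2 + (-(c / (4 * C0) * y ^ 2) +
        -(c / (4 * C0) * x ^ 2))) := by
        apply mul_le_mul_of_nonneg_left _ (by positivity)
        apply Real.exp_le_exp.2
        have c1 : c / (4 * C0) * y ^ 2 + c / (4 * C0) * x ^ 2 = c / 4 * ((x ^ 2 + y ^ 2) / C0) := by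
          field_simp
          ring
        have c2 : c / 4 * ((x ^ 2 + y ^ 2) / C0) ≤ c / 4 * Q :=
          mul_le_mul_of_nonneg_left e4 (by positivity)
        have c3 : c / 2 * (Q / 2 - (a ^ 2 + b ^ 2)) ≤ c / 2 * Qs :=
          mul_le_mul_of_nonneg_left e2 (by positivity)
        nlinarith
    _ = _ := by
        rw [Real.exp_add, Real.exp_add]
        ring

/-- the terms of the left side -/
noncomputable def Fx (u v a b t : ℝ) (p : ℤ × ℤ) : ℂ :=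
  ((((p.2 : ℝ) + p.1 * u + a : ℝ) : ℂ) + (((p.1 : ℝ) * v + b : ℝ) : ℂ) * I) *
   ((Real.exp (-(2 * π * t * (((p.2 : ℝ) + p.1 * u + a) ^ 2 + ((p.1 : ℝ) * v + b) ^ 2) /
    (2 * v))) : ℝ) : ℂ)

/-- the terms of the right side -/
noncomputable def Hx (u v a b t : ℝ) (p : ℤ × ℤ) : ℂ :=
  ((((p.2 : ℝ) - p.1 * u : ℝ) : ℂ) - (((p.1 : ℝ) * v : ℝ) : ℂ) * I) *
    cexp (2 * π * I * (((a * (p.1 * v) + b * (p.2 - p.1 * u)) / v : ℝ) : ℂ)) *
   ((Real.exp (-(2 * π * (((p.2 : ℝ) - p.1 * u) ^ 2 + ((p.1 : ℝ) * v) ^ 2) /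
    (2 * v * t))) : ℝ) : ℂ)

theorem summ_F {u v a b t : ℝ} (hv : 0 < v) (ht : 0 < t) : Summable (Fx u v a b t) := by
  have h := summ_two u v a b (π * t / v) hv.ne' (by positivity)
  refine Summable.of_norm (h.congr fun p => ?_)
  unfold Fx
  rw [norm_mul, Complex.norm_real, Real.norm_eq_abs, Real.abs_exp, Complex.norm_add_mul_I]
  congr 2
  field_simp

theorem summ_H {u v a b t : ℝ} (hv : 0 < v) (ht : 0 < t) : Summable (Hx u v a b t) := by
  have h := summ_two (-u) (-v) 0 0 (π / (v * t)) (neg_ne_zero.2 hv.ne') (by positivity)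
  refine Summable.of_norm (h.congr fun p => ?_)
  unfold Hx
  have e : ((((p.2 : ℝ) - p.1 * u : ℝ) : ℂ) - (((p.1 : ℝ) * v : ℝ) : ℂ) * I) =
      ((((p.2 : ℝ) + p.1 * (-u) + 0 : ℝ) : ℂ) + (((p.1 : ℝ) * (-v) + 0 : ℝ) : ℂ) * I) := by
    push_cast
    ring
  rw [norm_mul, norm_mul, norm_e, mul_one, Complex.norm_real, Real.norm_eq_abs, Real.abs_exp, e,
    Complex.norm_add_mul_I]
  congr 2
  field_simp
  ring

/-- the intermediate terms -/
noncomputable def Gx (u v a b t : ℝ) (y k : ℤ) : ℂ :=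
  ga (t * v) (b / v) 0 y * (-I / (((t / v : ℝ) : ℂ) * √(t / v)) *
    (((k : ℂ) - (0 : ℝ)) * gb (t / v) (y * u + a) 0 k) +
      (v * ((y : ℂ) + (b / v : ℝ)) * I) * (1 / (√(t / v) : ℂ) * gb (t / v) (y * u + a) 0 k))

theorem step1 {u v a b t : ℝ} (hv : 0 < v) (ht : 0 < t) (y : ℤ) :
    ∑' x : ℤ, Fx u v a b t (y, x) = ∑' k : ℤ, Gx u v a b t y k := by
  have hs : 0 < t / v := by positivity
  obtain ⟨S0, S1, h1, h2, h3, h4⟩ := pois hs (y * u + a) 0
  have hF : HasSum (fun x : ℤ => Fx u v a b t (y, x)) (ga (t * v) (b / v) 0 y *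
      (-I / (((t / v : ℝ) : ℂ) * √(t / v)) * S1 +
        (v * ((y : ℂ) + (b / v : ℝ)) * I) * (1 / (√(t / v) : ℂ) * S0))) := by
    have h5 := (h4.add (h3.mul_left (v * ((y : ℂ) + (b / v : ℝ)) * I))).mul_left
      (ga (t * v) (b / v) 0 y)
    have e : (fun x : ℤ => Fx u v a b t (y, x)) = fun x : ℤ => ga (t * v) (b / v) 0 y *
        (((x : ℂ) + ((y * u + a : ℝ) : ℂ)) * ga (t / v) (y * u + a) 0 x +
          (v * ((y : ℂ) + (b / v : ℝ)) * I) * ga (t / v) (y * u + a) 0 x) := by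
      funext x
      unfold Fx ga
      have hv' : (v : ℂ) ≠ 0 := by exact_mod_cast hv.ne'
      have e1 : ((Real.exp (-(2 * π * t * (((x : ℝ) + y * u + a) ^ 2 + ((y : ℝ) * v + b) ^ 2) /
          (2 * v))) : ℝ) : ℂ) = cexp (-(π * (t * v : ℝ) * ((y : ℂ) + (b / v : ℝ)) ^ 2)) *
          cexp (-(π * (t / v : ℝ) * ((x : ℂ) + (y * u + a : ℝ)) ^ 2)) := by
        rw [← Complex.exp_add, Complex.ofReal_exp]
        congr 1
        push_cast
        field_simp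
        ring
      simp only
      rw [e1]
      have e2 : (v : ℂ) * ((y : ℂ) + ((b / v : ℝ) : ℂ)) = (((y : ℝ) * v + b : ℝ) : ℂ) := by
        push_cast
        field_simp
      rw [e2]
      simp only [Complex.ofReal_zero, zero_mul, mul_zero, Complex.exp_zero, one_mul]
      push_cast
      ring
    rw [e]
    exact h5
  have hG : HasSum (fun k : ℤ => Gx u v a b t y k) (ga (t * v) (b / v) 0 y *
      (-I / (((t / v : ℝ) : ℂ) * √(t / v)) * S1 +
        (v * ((y : ℂ) + (b / v : ℝ)) * I) * (1 / (√(t / v) : ℂ) * S0))) := by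
    unfold Gx
    exact ((h2.mul_left _).add ((h1.mul_left _).mul_left _)).mul_left _
  rw [hF.tsum_eq, hG.tsum_eq]

theorem step2 {u v a b t : ℝ} (hv : 0 < v) (ht : 0 < t) (k : ℤ) :
    ∑' y : ℤ, Gx u v a b t y k = ∑' l : ℤ, 1 / (t : ℂ) ^ 2 * Hx u v a b t (k, l) := by
  have hs : 0 < t * v := by positivity
  obtain ⟨S0, S1, h1, h2, h3, h4⟩ := pois hs (b / v) (k * u)
  obtain ⟨E, hE⟩ : ∃ E : ℂ, E = cexp (2 * π * I * ((k : ℂ) * a)) *
    cexp (-(π * (k : ℂ) ^ 2 / (t / v : ℝ))) := ⟨_, rfl⟩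
  have hv' : (v : ℂ) ≠ 0 := by exact_mod_cast hv.ne'
  have ht' : (t : ℂ) ≠ 0 := by exact_mod_cast ht.ne'
  obtain ⟨r1, hr1⟩ : ∃ r1 : ℂ, r1 = (√(t / v) : ℂ) := ⟨_, rfl⟩
  obtain ⟨r2, hr2⟩ : ∃ r2 : ℂ, r2 = (√(t * v) : ℂ) := ⟨_, rfl⟩
  have hr12 : r1 * r2 = t := by
    rw [hr1, hr2, ← Complex.ofReal_mul, ← Real.sqrt_mul (by positivity)]
    congr 1
    rw [show t / v * (t * v) = t ^ 2 by field_simp]
    exact Real.sqrt_sq ht.le
  have hr10 : r1 ≠ 0 := left_ne_zero_of_mul (hr12 ▸ ht' : r1 * r2 ≠ 0)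
  have hr20 : r2 ≠ 0 := right_ne_zero_of_mul (hr12 ▸ ht' : r1 * r2 ≠ 0)
  have hG : HasSum (fun y : ℤ => Gx u v a b t y k) (E * (-I / (((t / v : ℝ) : ℂ) * r1) * k *
      (1 / r2 * S0) + v * I * (1 / r1) * (-I / (((t * v : ℝ) : ℂ) * r2) * S1))) := by
    have h5 := ((h3.mul_left (-I / (((t / v : ℝ) : ℂ) * r1) * k)).add
      (h4.mul_left (v * I * (1 / r1)))).mul_left E
    rw [← hr2] at h5
    have e : (fun y : ℤ => Gx u v a b t y k) = fun y : ℤ => E *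
        (-I / (((t / v : ℝ) : ℂ) * r1) * k * ga (t * v) (b / v) (k * u) y +
          v * I * (1 / r1) * (((y : ℂ) + (b / v : ℝ)) * ga (t * v) (b / v) (k * u) y)) := by
      funext y
      unfold Gx ga gb
      rw [hE, ← hr1]
      have e1 : cexp (2 * π * I * (((k : ℂ) - (0 : ℝ)) * ((y * u + a : ℝ) : ℂ))) =
          cexp (2 * π * I * ((k : ℂ) * a)) * cexp (2 * π * I * (((k * u : ℝ) : ℂ) * y)) := by
        rw [← Complex.exp_add]
        congr 1
        push_cast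
        ring
      rw [e1]
      simp only [Complex.ofReal_zero, zero_mul, mul_zero, Complex.exp_zero, one_mul, sub_zero]
      ring
    rw [e]
    exact h5
  have hH : HasSum (fun l : ℤ => 1 / (t : ℂ) ^ 2 * Hx u v a b t (k, l))
      (E * (-I / (((t / v : ℝ) : ℂ) * r1) * k *
      (1 / r2 * S0) + v * I * (1 / r1) * (-I / (((t * v : ℝ) : ℂ) * r2) * S1))) := by
    have h5 := (((h1.mul_left (1 / r2)).mul_left (-I / (((t / v : ℝ) : ℂ) * r1) * k)).add
      ((h2.mul_left (-I / (((t * v : ℝ) : ℂ) * r2))).mul_left (v * I * (1 / r1)))).mul_left E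
    have e : (fun l : ℤ => 1 / (t : ℂ) ^ 2 * Hx u v a b t (k, l)) = fun l : ℤ => E *
        (-I / (((t / v : ℝ) : ℂ) * r1) * k * (1 / r2 * gb (t * v) (b / v) (k * u) l) +
          v * I * (1 / r1) * (-I / (((t * v : ℝ) : ℂ) * r2) *
            (((l : ℂ) - ((k * u : ℝ) : ℂ)) * gb (t * v) (b / v) (k * u) l))) := by
      funext l
      unfold Hx gb
      have e1 : cexp (2 * π * I * (((a * (k * v) + b * (l - k * u)) / v : ℝ) : ℂ)) *
          ((Real.exp (-(2 * π * (((l : ℝ) - k * u) ^ 2 + ((k : ℝ) * v) ^ 2) /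
            (2 * v * t))) : ℝ) : ℂ) = E *
          (cexp (2 * π * I * (((l : ℂ) - ((k * u : ℝ) : ℂ)) * ((b / v : ℝ) : ℂ))) *
            cexp (-(π * ((l : ℂ) - ((k * u : ℝ) : ℂ)) ^ 2 / ((t * v : ℝ) : ℂ)))) := by
        rw [hE, Complex.ofReal_exp, ← Complex.exp_add, ← Complex.exp_add, ← Complex.exp_add,
          ← Complex.exp_add]
        congr 1
        push_cast
        field_simp
        ring
      simp only
      rw [mul_assoc (_ - _) (cexp _) _, e1]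
      generalize cexp (2 * π * I * (((l : ℂ) - ((k * u : ℝ) : ℂ)) * ((b / v : ℝ) : ℂ))) *
            cexp (-(π * ((l : ℂ) - ((k * u : ℝ) : ℂ)) ^ 2 / ((t * v : ℝ) : ℂ))) = Z
      have hI : I ^ 2 = -1 := I_sq
      push_cast
      rw [← hr12]
      have hr12' : r1 * r2 ≠ 0 := mul_ne_zero hr10 hr20
      field_simp
      linear_combination (((l : ℂ) - k * u) * E * Z) * hI
    rw [e]
    exact h5
  rw [hG.tsum_eq, hH.tsum_eq]

end Pool.Agent.W975.CM
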