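import Mathlib
import Pool.Agent.W975.CM.Pois2

/-!
# Poisson summation on a residue class of the ring of integers: assembly
-/

set_option autoImplicit false
set_option maxHeartbeats 1000000

open Complex Real

namespace Pool.Agent.W975.CM

open Pool.Agent.W192.CM

theorem summ_G {u v a b t : ℝ} (hv : 0 < v) (ht : 0 < t) :
    Summable (Function.uncurry (Gx u v a b t)) := by
  have hs1 : 0 < t / v := by positivity
  have hs2 : 0 < t * v := by positivity
  obtain ⟨_, _, -, -, h3, h4⟩ := pois hs2 (b / v) 0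
  obtain ⟨_, _, k1, k2, -, -⟩ := pois hs1 0 0
  have m1 := h3.summable.norm.mul_of_nonneg k2.summable.norm (fun _ => norm_nonneg _)
    (fun _ => norm_nonneg _)
  have m2 := h4.summable.norm.mul_of_nonneg k1.summable.norm (fun _ => norm_nonneg _)
    (fun _ => norm_nonneg _)
  refine Summable.of_norm_bounded
    ((m1.mul_left ‖-I / (((t / v : ℝ) : ℂ) * √(t / v))‖).add
      (m2.mul_left (‖(v : ℂ) * I‖ * ‖1 / (√(t / v) : ℂ)‖))) ?_
  rintro ⟨y, k⟩
  simp only [Function.uncurry_apply_pair]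
  unfold Gx
  rw [norm_mul]
  refine (mul_le_mul_of_nonneg_left (norm_add_le _ _) (norm_nonneg _)).trans (le_of_eq ?_)
  simp only [norm_mul, norm_gb, norm_ga]
  ring

theorem pois2 {u v a b t : ℝ} (hv : 0 < v) (ht : 0 < t) :
    ∑' p, Fx u v a b t p = 1 / (t : ℂ) ^ 2 * ∑' p, Hx u v a b t p := by
  have hF := summ_F (u := u) (a := a) (b := b) hv ht
  have hH := summ_H (u := u) (a := a) (b := b) hv ht
  have hG := summ_G (u := u) (a := a) (b := b) hv ht
  rw [hF.tsum_prod, hH.tsum_prod, ← tsum_mul_left]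
  calc ∑' y : ℤ, ∑' x : ℤ, Fx u v a b t (y, x) = ∑' y : ℤ, ∑' k : ℤ, Gx u v a b t y k :=
        tsum_congr fun y => step1 hv ht y
    _ = ∑' k : ℤ, ∑' y : ℤ, Gx u v a b t y k := hG.tsum_comm.symm
    _ = ∑' k : ℤ, 1 / (t : ℂ) ^ 2 * ∑' l : ℤ, Hx u v a b t (k, l) := by
        refine tsum_congr fun k => ?_
        rw [step2 hv ht k, tsum_mul_left]

/-- the coordinates -/
theorem exists_e1 {R : Subring ℂ} {ω : ℂ} (h : CMRing R ω) :
    ∃ e : ℤ × ℤ ≃ R, ∀ p, ((e p : R) : ℂ) = (p.2 : ℂ) + p.1 * ω := by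
  have hinj : Function.Injective (fun p : ℤ × ℤ =>
      (⟨(p.2 : ℂ) + p.1 * ω, (h.mem _).2 ⟨p.2, p.1, rfl⟩⟩ : R)) := by
    intro p q hpq
    have h1 : (p.2 : ℂ) + p.1 * ω = (q.2 : ℂ) + q.1 * ω := congrArg Subtype.val hpq
    have h2 := congrArg Complex.im h1
    have h3 := congrArg Complex.re h1
    simp only [Complex.add_im, Complex.intCast_im, Complex.mul_im, Complex.intCast_re, zero_mul,
      add_zero, zero_add] at h2
    simp only [Complex.add_re, Complex.intCast_re, Complex.mul_re, Complex.intCast_im, zero_mul,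
      sub_zero] at h3
    have h4 : (p.1 : ℝ) = q.1 := mul_right_cancel₀ h.im.ne' h2
    rw [h4] at h3
    have h5 : (p.2 : ℝ) = q.2 := by linarith
    exact Prod.ext (by exact_mod_cast h4) (by exact_mod_cast h5)
  have hsurj : Function.Surjective (fun p : ℤ × ℤ =>
      (⟨(p.2 : ℂ) + p.1 * ω, (h.mem _).2 ⟨p.2, p.1, rfl⟩⟩ : R)) := by
    rintro ⟨z, hz⟩
    obtain ⟨x, y, hxy⟩ := (h.mem z).1 hz
    exact ⟨(y, x), Subtype.ext hxy.symm⟩
  exact ⟨Equiv.ofBijective _ ⟨hinj, hsurj⟩, fun p => rfl⟩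

/-- the trace of `ω` is an integer -/
theorem exists_tr {R : Subring ℂ} {ω : ℂ} (h : CMRing R ω) : ∃ Y : ℤ, 2 * ω.re = Y := by
  have hω : ω ∈ R := (h.mem ω).2 ⟨0, 1, by simp⟩
  obtain ⟨X, Y, hXY⟩ := (h.mem _).1 (R.mul_mem hω hω)
  refine ⟨Y, ?_⟩
  have h2 := congrArg Complex.im hXY
  simp only [Complex.mul_im, Complex.add_im, Complex.intCast_im, Complex.intCast_re, zero_mul,
    add_zero, zero_add] at h2
  have h3 : (2 * ω.re - Y) * ω.im = 0 := by linarith
  rcases mul_eq_zero.1 h3 with h4 | h4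
  · linarith
  · exact absurd h4 h.im.ne'

/-- the shear -/
def shear (Y : ℤ) : ℤ × ℤ ≃ ℤ × ℤ where
  toFun p := (p.1, p.2 - p.1 * Y)
  invFun p := (p.1, p.2 + p.1 * Y)
  left_inv p := by
    ext <;> simp
  right_inv p := by
    ext <;> simp

/-- POIS -/
theorem c_pois : Pool.Agent.W192.CM.C_POIS := by
  intro R ω hR z0 t ht
  have hv := hR.im
  obtain ⟨e, he⟩ := exists_e1 hR
  obtain ⟨Y, hY⟩ := exists_tr hR
  have hF := summ_F (u := ω.re) (a := z0.re) (b := z0.im) hv ht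
  have hH := summ_H (u := ω.re) (a := z0.re) (b := z0.im) hv ht
  have key := pois2 (u := ω.re) (a := z0.re) (b := z0.im) hv ht
  have eF : ∀ p, (fun α : R => ((α : ℂ) + z0) *
      (Real.exp (-(2 * Real.pi * t * Complex.normSq ((α : ℂ) + z0) / (2 * ω.im))) : ℂ)) (e p) =
      Fx ω.re ω.im z0.re z0.im t p := by
    intro p
    have h1 : ((e p : R) : ℂ) + z0 = (((p.2 : ℝ) + p.1 * ω.re + z0.re : ℝ) : ℂ) +
        (((p.1 : ℝ) * ω.im + z0.im : ℝ) : ℂ) * I := by
      rw [he]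
      apply Complex.ext <;> simp
    simp only
    unfold Fx
    rw [h1, Complex.normSq_add_mul_I]
  have eH : ∀ p, (fun β : R => ((starRingEnd ℂ) (β : ℂ)) * ez ω (z0 * (β : ℂ)) *
      (Real.exp (-(2 * Real.pi * Complex.normSq (β : ℂ) / (2 * ω.im * t))) : ℂ))
      (((shear Y).trans e) p) = Hx ω.re ω.im z0.re z0.im t p := by
    intro p
    have h1 : ((((shear Y).trans e) p : R) : ℂ) = (((p.2 : ℝ) - p.1 * ω.re : ℝ) : ℂ) +
        (((p.1 : ℝ) * ω.im : ℝ) : ℂ) * I := by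
      rw [Equiv.trans_apply, he]
      simp only [shear, Equiv.coe_fn_mk]
      apply Complex.ext
      · simp only [Complex.add_re, Complex.mul_re, Complex.intCast_re, Complex.intCast_im,
          Complex.ofReal_re, Complex.ofReal_im, Complex.I_re, Complex.I_im]
        push_cast
        rw [← hY]
        ring
      · simp
    simp only
    unfold Hx ez
    rw [h1, Complex.normSq_add_mul_I]
    have h2 : (starRingEnd ℂ) ((((p.2 : ℝ) - p.1 * ω.re : ℝ) : ℂ) +
        (((p.1 : ℝ) * ω.im : ℝ) : ℂ) * I) = (((p.2 : ℝ) - p.1 * ω.re : ℝ) : ℂ) -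
        (((p.1 : ℝ) * ω.im : ℝ) : ℂ) * I := by
      rw [map_add, map_mul, Complex.conj_ofReal, Complex.conj_ofReal, Complex.conj_I]
      ring
    have h3 : (z0 * ((((p.2 : ℝ) - p.1 * ω.re : ℝ) : ℂ) +
        (((p.1 : ℝ) * ω.im : ℝ) : ℂ) * I)).im =
        z0.re * (p.1 * ω.im) + z0.im * (p.2 - p.1 * ω.re) := by
      simp
    rw [h2, h3]
  refine ⟨?_, ?_, ?_⟩
  · rw [← e.summable_iff]
    exact hF.congr fun p => (eF p).symm
  · rw [← ((shear Y).trans e).summable_iff]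
    exact hH.congr fun p => (eH p).symm
  · rw [← e.tsum_eq, ← ((shear Y).trans e).tsum_eq (fun β : R => ((starRingEnd ℂ) (β : ℂ)) *
      ez ω (z0 * (β : ℂ)) *
      (Real.exp (-(2 * Real.pi * Complex.normSq (β : ℂ) / (2 * ω.im * t))) : ℂ))]
    rw [tsum_congr eF, tsum_congr eH]
    exact key

end Pool.Agent.W975.CM
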